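import Pool.Agent.Y250.SS.Stm
set_option autoImplicit false
set_option linter.all false

namespace Pool.Agent.Y971.SS

open MeasureTheory Set Complex Filter Topology
open scoped ENNReal NNReal

open Pool.Agent.Y250.SS

/-!
Job SS-X: the map `X(u) = 2 u / (1 + |u|^2)`.
-/

lemma w_pos (u : ℝ × ℝ) : 0 < w u := by unfold w; positivity

lemma w_ge (u : ℝ × ℝ) : 1 ≤ w u := by
  unfold w
  nlinarith [sq_nonneg u.1, sq_nonneg u.2]

lemma w_fd (u : ℝ × ℝ) : HasFDerivAt w (lf (2 * u.1) (2 * u.2)) u := by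
  have h1 : HasFDerivAt (fun u : ℝ × ℝ => u.1) (ContinuousLinearMap.fst ℝ ℝ ℝ) u := hasFDerivAt_fst
  have h2 : HasFDerivAt (fun u : ℝ × ℝ => u.2) (ContinuousLinearMap.snd ℝ ℝ ℝ) u := hasFDerivAt_snd
  have h := ((h1.mul h1).add (h2.mul h2)).const_add 1
  have e : w = fun u : ℝ × ℝ => 1 + (u.1 * u.1 + u.2 * u.2) := by
    funext u
    unfold w
    ring
  rw [e]
  refine h.congr_fderiv ?_
  unfold lf
  ext <;> simp <;> ring

lemma winv_fd (u : ℝ × ℝ) : HasFDerivAt (fun u => (w u)⁻¹)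
    (lf (-(2 * u.1) / w u ^ 2) (-(2 * u.2) / w u ^ 2)) u := by
  have h := (hasDerivAt_inv (w_pos u).ne').comp_hasFDerivAt u (w_fd u)
  refine h.congr_fderiv ?_
  unfold lf
  ext <;> simp <;> ring

theorem xd : S_XD := by
  intro u
  have hw := (w_pos u).ne'
  have h1 : HasFDerivAt (fun u : ℝ × ℝ => u.1) (ContinuousLinearMap.fst ℝ ℝ ℝ) u := hasFDerivAt_fst
  have h2 : HasFDerivAt (fun u : ℝ × ℝ => u.2) (ContinuousLinearMap.snd ℝ ℝ ℝ) u := hasFDerivAt_snd
  have k1 := (h1.const_mul 2).mul (winv_fd u)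
  have k2 := (h2.const_mul 2).mul (winv_fd u)
  have h := k1.prodMk k2
  have e : X = fun u : ℝ × ℝ => (2 * u.1 * (w u)⁻¹, 2 * u.2 * (w u)⁻¹) := by
    funext u
    unfold X
    rw [div_eq_mul_inv, div_eq_mul_inv]
  rw [e]
  refine h.congr_fderiv ?_
  unfold lf X11 X12 X22
  ext <;> simp <;> field_simp <;> first | ring1 | (unfold w; ring1)

lemma sq_X (u : ℝ × ℝ) : (X u).1 ^ 2 + (X u).2 ^ 2 = 4 * (w u - 1) / w u ^ 2 := by
  have hw := (w_pos u).ne'
  have e : u.1 ^ 2 + u.2 ^ 2 = w u - 1 := by unfold w; ring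
  show (2 * u.1 / w u) ^ 2 + (2 * u.2 / w u) ^ 2 = _
  rw [div_pow, div_pow, ← add_div, ← e]
  congr 1
  ring

lemma one_sub_X (u : ℝ × ℝ) : 1 - (X u).1 ^ 2 - (X u).2 ^ 2 = ((2 - w u) / w u) ^ 2 := by
  have hw := (w_pos u).ne'
  rw [sub_sub, sq_X]
  field_simp
  ring

lemma xf1 (u : ℝ × ℝ) (hu : u.1 ^ 2 + u.2 ^ 2 ≤ 1) : hh (X u) = (2 - w u) / w u := by
  unfold hh
  rw [one_sub_X, Real.sqrt_sq]
  apply div_nonneg _ (w_pos u).le
  unfold w
  linarith

lemma inj {u v : ℝ × ℝ} (hu : u.1 ^ 2 + u.2 ^ 2 ≤ 1) (hv : v.1 ^ 2 + v.2 ^ 2 ≤ 1)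
    (h : X u = X v) : u = v := by
  have h1 := xf1 u hu
  have h2 := xf1 v hv
  rw [h, h2] at h1
  have wu := w_pos u
  have wv := w_pos v
  have h3 : w u = w v := by
    rw [div_eq_div_iff wv.ne' wu.ne'] at h1
    nlinarith
  have e1 : 2 * u.1 / w u = 2 * v.1 / w v := congrArg Prod.fst h
  have e2 : 2 * u.2 / w u = 2 * v.2 / w v := congrArg Prod.snd h
  rw [h3, div_left_inj' wv.ne'] at e1 e2
  exact Prod.ext (by linarith) (by linarith)

lemma U_lt {n : ℕ} (hn : 1 ≤ n) {u : ℝ × ℝ} (hu : u ∈ U n) : u.1 ^ 2 + u.2 ^ 2 < 1 / 6 := by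
  have h1 : u.1 ^ 2 + u.2 ^ 2 < 1 / (6 * (n : ℝ)) := hu
  refine h1.trans_le ?_
  apply one_div_le_one_div_of_le (by norm_num)
  have : (1 : ℝ) ≤ n := by exact_mod_cast hn
  linarith

lemma U_meas (n : ℕ) : MeasurableSet (U n) := by
  unfold U
  exact measurableSet_lt (by fun_prop) (by fun_prop)

lemma inj_U {n : ℕ} (hn : 1 ≤ n) : InjOn X (U n) := fun u hu v hv h =>
  inj (by linarith [U_lt hn hu]) (by linarith [U_lt hn hv]) h

lemma cont_X : Continuous X := continuous_iff_continuousAt.2 fun u => (xd u).continuousAt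

lemma S_meas {n : ℕ} (hn : 1 ≤ n) : MeasurableSet (S n) :=
  (U_meas n).image_of_continuousOn_injOn cont_X.continuousOn (inj_U hn)

theorem xf : S_XF := by
  refine ⟨xf1, ?_, ?_, ?_, ?_, fun n hn => S_meas hn⟩
  · intro u hu
    have h := one_sub_X u
    have h1 : 0 < (2 - w u) / w u := by
      apply div_pos _ (w_pos u)
      unfold w
      linarith
    have h2 : 0 < ((2 - w u) / w u) ^ 2 := by positivity
    linarith
  · intro n hn u hu a b
    have h1 := U_lt hn hu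
    have hw := w_pos u
    have hw1 := w_ge u
    have hs : u.1 ^ 2 + u.2 ^ 2 = w u - 1 := by unfold w; ring
    have hw2 : w u ≤ 7 / 6 := by linarith
    have key : (X11 u * a + X12 u * b) ^ 2 + (X12 u * a + X22 u * b) ^ 2 =
        (4 * w u ^ 2 * (a ^ 2 + b ^ 2) - 16 * (u.1 * a + u.2 * b) ^ 2) / w u ^ 4 := by
      unfold X11 X12 X22
      field_simp
      unfold w
      ring
    rw [key, le_div_iff₀ (by positivity)]
    have cs : (u.1 * a + u.2 * b) ^ 2 ≤ (w u - 1) * (a ^ 2 + b ^ 2) := by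
      rw [← hs]
      nlinarith [sq_nonneg (u.1 * b - u.2 * a)]
    have hab : 0 ≤ a ^ 2 + b ^ 2 := by positivity
    have h3 : w u ^ 4 ≤ 4 * w u ^ 2 - 16 * (w u - 1) := by
      have : 4 * w u ^ 2 - 16 * (w u - 1) = (2 * (2 - w u)) ^ 2 := by ring
      rw [this, show w u ^ 4 = (w u ^ 2) ^ 2 by ring]
      apply pow_le_pow_left₀ (by positivity)
      nlinarith
    nlinarith
  · intro n hn x hx
    have hx1 : x.1 ^ 2 + x.2 ^ 2 < 1 / (6 * (n : ℝ)) := hx
    have hx2 : x.1 ^ 2 + x.2 ^ 2 < 1 / 6 := U_lt hn hx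
    set h : ℝ := hh x with hhd
    have h0 : 0 ≤ h := Real.sqrt_nonneg _
    have hsq : h ^ 2 = 1 - x.1 ^ 2 - x.2 ^ 2 := Real.sq_sqrt (by linarith)
    have hp : 0 < 1 + h := by linarith
    refine ⟨(x.1 / (1 + h), x.2 / (1 + h)), ?_, ?_⟩
    · show (x.1 / (1 + h)) ^ 2 + (x.2 / (1 + h)) ^ 2 < 1 / (6 * (n : ℝ))
      refine lt_of_le_of_lt ?_ hx1
      rw [div_pow, div_pow, ← add_div]
      apply div_le_self (by positivity)
      nlinarith
    · have hw : w (x.1 / (1 + h), x.2 / (1 + h)) = 2 / (1 + h) := by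
        show 1 + (x.1 / (1 + h)) ^ 2 + (x.2 / (1 + h)) ^ 2 = _
        rw [div_pow, div_pow]
        field_simp
        nlinarith
      show (2 * (x.1 / (1 + h)) / w (x.1 / (1 + h), x.2 / (1 + h)),
        2 * (x.2 / (1 + h)) / w (x.1 / (1 + h), x.2 / (1 + h))) = x
      rw [hw]
      ext
      · show 2 * (x.1 / (1 + h)) / (2 / (1 + h)) = x.1
        field_simp
      · show 2 * (x.2 / (1 + h)) / (2 / (1 + h)) = x.2
        field_simp
  · rintro n hn _ ⟨u, hu, rfl⟩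
    have h1 := U_lt hn hu
    have hw := w_pos u
    have hw1 := w_ge u
    have hs : u.1 ^ 2 + u.2 ^ 2 = w u - 1 := by unfold w; ring
    rw [sq_X, div_lt_iff₀ (by positivity)]
    nlinarith

lemma det_X (u : ℝ × ℝ) :
    ((lf (X11 u) (X12 u)).prod (lf (X12 u) (X22 u))).det = jac u := by
  have hw := w_pos u
  unfold ContinuousLinearMap.det
  rw [← LinearMap.det_toMatrix (Module.Basis.finTwoProd ℝ), Matrix.det_fin_two]
  have e : X11 u * X22 u - X12 u * X12 u = jac u := by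
    unfold X11 X12 X22 jac
    field_simp
    unfold w
    ring
  simp [LinearMap.toMatrix_apply, lf, e]

lemma abs_det {n : ℕ} (hn : 1 ≤ n) {u : ℝ × ℝ} (hu : u ∈ U n) :
    |((lf (X11 u) (X12 u)).prod (lf (X12 u) (X22 u))).det| = jac u := by
  rw [det_X, abs_of_nonneg]
  have h1 := U_lt hn hu
  have hs : u.1 ^ 2 + u.2 ^ 2 = w u - 1 := by unfold w; ring
  have hw := w_pos u
  unfold jac
  apply div_nonneg _ (by positivity)
  linarith

theorem cv : S_CV := by
  intro n hn f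
  unfold S
  rw [integral_image_eq_integral_abs_det_fderiv_smul volume (U_meas n)
    (fun u _ => (xd u).hasFDerivWithinAt) (inj_U hn)]
  refine setIntegral_congr_fun (U_meas n) fun u hu => ?_
  show |((lf (X11 u) (X12 u)).prod (lf (X12 u) (X22 u))).det| • f (X u) = _
  rw [abs_det hn hu, Complex.real_smul]

theorem cl : S_CL := by
  intro n hn f
  unfold S
  rw [lintegral_image_eq_lintegral_abs_det_fderiv_mul volume (U_meas n)
    (fun u _ => (xd u).hasFDerivWithinAt) (inj_U hn)]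
  refine setLIntegral_congr_fun (U_meas n) fun u hu => ?_
  show ENNReal.ofReal |((lf (X11 u) (X12 u)).prod (lf (X12 u) (X22 u))).det| * f (X u) = _
  rw [abs_det hn hu]

end Pool.Agent.Y971.SS
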